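import Pool.Agent.PST.StmtsGV
import Pool.Agent.WAT.Stmts

/-!
# Squad HFC (MP_6a3f1a_al): the final class of the theorem on abelian defect groups

On top of `PST` (theorem (S++), theorem (R)), `WAT` (theorem of Watanabe) and `AT3` (`3 |E| ≤ ℓ`).

* `LP`: the terminal class `rank at most two, or 3 |E| ≤ ℓ` (instead of `GU.LR`).
* `Hp K`: the pairs `(V, E)`, `V = C × V₀`, `E` trivial on `C`, `V₀` stable, `(V₀, E)` in the class `K`.
  `Kh K`: the same as a class of triples, `W = V` (so that the condition on quotients is empty).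
* `ClW`: the clean hypotheses, as `GU.ClV`, but `U` is generated by two elements or `T` induces at most
  `ℓ / 3` automorphisms on `U`.

Rows: ADL YKL (terminal class), HPQ ADH LEH (central factor), CLA CLB (clean hypotheses).  All rows are
independent; a row may take the rows which it uses as hypotheses.  Complete proofs in the docstrings.
-/

open scoped BigOperators

noncomputable section

namespace Pool.Agent.HFC

open Pool.Agent.Helper51_AWC Pool.Agent.Helper79_WRA Pool.Agent.PP Pool.Agent.PP.KF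
open Pool.Agent.PP.K9 Pool.Agent.PP.K9.H97 Pool.Agent.PP.H75 Pool.Agent.PP.T3 Pool.Agent.PP.T2
open Pool.Agent.PFD (Ei)
open Pool.Agent.PSS Pool.Agent.PST Pool.Agent.PST.GU

attribute [local instance] Ideal.Quotient.field

/-! ## Definitions -/

/-- the terminal class: rank at most two, or at most `ℓ / 3` automorphisms, `ℓ ≥ 5` -/
def LP : Kt := fun ℓ V _ E => TW.R2 ℓ V ∨ (5 ≤ ℓ ∧ Finite E ∧ 3 * Nat.card E ≤ ℓ)

/-- `V = C × V₀`, `E` is trivial on `C`, `V₀` is stable, `(V₀, E)` is in the class `K` -/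
def Hp (K : Kl) (ℓ : ℕ) (V : Type) [Group V] (E : Subgroup (MulAut V)) : Prop :=
  (∀ a b : V, a * b = b * a) ∧ ∃ C V₀ : Subgroup V, C ⊓ V₀ = ⊥ ∧ C ⊔ V₀ = ⊤ ∧
    (∀ a ∈ E, ∀ c ∈ C, a c = c) ∧ (∀ a ∈ E, ∀ v ∈ V₀, a v ∈ V₀) ∧
    (V₀ = ⊥ ∨ ∃ W₀ : Subgroup V₀, K ℓ V₀ (rse E V₀) W₀)

/-- `Hp K` as a class of triples -/
def Kh (K : Kl) : Kl := fun ℓ V _ E W => W = ⊤ ∧ W ≠ ⊥ ∧ Hp K ℓ V E

/-- The maps `U → H`, `u ↦ t u t⁻¹`, for `t ∈ T`. -/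
def Ind {H : Type} [Group H] (T : Set H) (U : Subgroup H) : Set (U → H) :=
  {f | ∃ t ∈ T, ∀ u : U, f u = t * u * t⁻¹}

/-- The clean hypotheses: as `GU.ClV`, with a weaker condition `gn`. -/
structure ClW (ℓ : ℕ) {H : Type} [Group H] (T : Set H) (D : Subgroup H) (s : ℕ)
    (Y : Fin s → Subgroup H) (U : Subgroup H) : Prop where
  jn : (⨆ i, Y i) ⊔ U = D
  dy : ∀ i, Y i ⊓ (⨆ j, ⨆ (_ : j < i), Y j) = ⊥
  du : (⨆ i, Y i) ⊓ U = ⊥
  cy : ∀ i, ∃ y ∈ Y i, ∀ x ∈ Y i, ∃ k : ℤ, x = y ^ k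
  gn : (∃ x y : H, U = Subgroup.closure {x, y}) ∨ (5 ≤ ℓ ∧ 3 * (Ind T U).ncard ≤ ℓ)
  sy : ∀ i, ∀ t ∈ T, ∀ y ∈ Y i, t * y * t⁻¹ ∈ Y i
  su : ∀ t ∈ T, ∀ u ∈ U, t * u * t⁻¹ ∈ U
  fr : ∀ i, Y i ≠ ⊥ → ∀ t ∈ T, (∀ y ∈ Y i, t * y = y * t) → ∀ u ∈ U, u ≠ 1 →
    t * u = u * t → t ∈ Subgroup.centralizer (U : Set H)

/-! ## 1. The terminal class -/

/-- ADL: the terminal class is closed under quotients.

Proof.  `R2`: `GU.AdrStmt`.  Second case: if `π` is surjective and every element of `E'` is induced by an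
element of `E` (`Qr`), then `a' ↦` a chosen lift is an injective map `E' → E` (the lift determines `a'`, as `π` is
surjective), so `E'` is finite and `|E'| ≤ |E|`. -/
def AdlStmt : Prop := GU.AdrStmt → ∀ ℓ : ℕ, ℓ.Prime → AdT ℓ LP

/-- YKL: the theorem is known for the terminal class.

Proof.  `YkFor LR`, or `T3.T3aStmt` with `Nat.card (Ei V γ) = ix V γ` (`PFD.H63.card_Ei`,
`Helper63_PFD/EGX.lean`). -/
def YklStmt : Prop := YkFor LR → T3.T3aStmt → YkFor LP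

/-- MNL: the theorem for the union over the terminal class `LP`.

Proof.  As `sto_kf`, `sto_kv`, `adm_kv`, `len_kv`, `mnn_kv` (`Helper3_PST/AsmU.lean`, `AsmV.lean`) with `LP` instead
of `LR`: `YMT`, `LET`, `STT`, `STV`, `ADW` are stated for every terminal class. -/
def MnlStmt : Prop := (∀ ℓ : ℕ, ℓ.Prime → AdT ℓ LP) → YkFor LP → ∀ K : Kl,
  (∀ ℓ : ℕ, ℓ.Prime → Adm ℓ K) → StoFor K →
  (∀ ℓ : ℕ, ℓ.Prime → Adm ℓ (KV K LP)) ∧ LenFor (KV K LP)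

/-! ## 2. The central factor -/

/-- HPQ: quotients by a subgroup of the central factor.

Proof.  `C' = C.map π`, `V₀' = V₀.map π`.  `π c = π v`, `c ∈ C`, `v ∈ V₀`, implies `c⁻¹ v ∈ π.ker ≤ C`, so
`v ∈ C ⊓ V₀ = ⊥`.  `C' ⊔ V₀' = ⊤`: `π` is surjective (`Subgroup.map_sup`).  `E'` is trivial on `C'`, `V₀'` is stable:
`Qr.lif`.  `V₀ = ⊥` implies `V₀' = ⊥`.  Otherwise `RsqStmt` for `U = V₀` (`V₀ ⊓ π.ker ≤ V₀ ⊓ C = ⊥`): `τ`, and
`Adm.iso`: `K ℓ V₀' (rse E' V₀') (W₀.map τ)`. -/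
def HpqStmt : Prop := RsqStmt → ∀ (K : Kl) (ℓ : ℕ), Adm ℓ K → ∀ (V V' : Type) [Group V] [Group V']
  (E : Subgroup (MulAut V)) (E' : Subgroup (MulAut V')) (π : V →* V'), Qr E E' π →
  (∀ a b : V, a * b = b * a) → ∀ C V₀ : Subgroup V, C ⊓ V₀ = ⊥ → C ⊔ V₀ = ⊤ →
  (∀ a ∈ E, ∀ c ∈ C, a c = c) → (∀ a ∈ E, ∀ v ∈ V₀, a v ∈ V₀) →
  (V₀ = ⊥ ∨ ∃ W₀ : Subgroup V₀, K ℓ V₀ (rse E V₀) W₀) → π.ker ≤ C → Hp K ℓ V' E'

/-- ADH: the class `Kh K` is admissible.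

Proof.  `nt`, `st`: definition.  `iso`: `HPQ` (`π.ker = ⊥`), `(⊤ : Subgroup V).map π = ⊤`.  `quo`: `π.ker = ⊤` and `π`
is surjective, so `V'` is trivial, a contradiction. -/
def AdhStmt : Prop := HpqStmt → RsqStmt → ∀ K : Kl, (∀ ℓ : ℕ, ℓ.Prime → Adm ℓ K) →
  ∀ ℓ : ℕ, ℓ.Prime → Adm ℓ (Kh K)

/-- LEH: the number of modular characters of the blocks in `Kh K`.

Proof.  Claim, by strong induction on `|G|`: `Ld ℓ e V γ` and `V = ⊥` or `Hp K ℓ V (Ei V γ)` imply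
`ln e = ln (br_V e|N(V))`; by FRT the right side is `lnum (Tg V γ) γ`.  `V = ⊥`: `LenFor K`.  Let `C`, `V₀` be as in
`Hp`.  If `C = ⊥` then `V₀ = ⊤`: `V₀ = ⊥` gives `V = ⊥`; otherwise `Adm.iso` for `Subgroup.topEquiv`
(`Qr (rse E ⊤) E`) gives `K ℓ V E W`, `LenFor K`.  If `C ≠ ⊥` let `z ≠ 1` be (the image in `G` of) an element of `C`.
Every `t ∈ Tg V γ` induces an element of `Ei V γ`, which fixes `z`, so `Tg V γ ≤ Cu z` and `z ∈ TV.Zf V γ`.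

(1) `C(z) ≠ G`: `T3.LocStmt`: `b` with `Lc e V γ z b`; `TV.WatStmt`: `ln (b|Cu z) = ln e`.  `T3.LsbStmt`: `Ld` for
`b|Cu z`, `V.subgroupOf (Cu z)`.  `QrxStmt` for `X = Cu z` (`V` is commutative, `C(V) ≤ C(z)`): `π`, and HPQ for `π` (an
isomorphism, kernel `⊥`) gives `Hp K` in `Cu z`.  Induction, FRT in `Cu z` and LTX: `ln (b|Cu z) = lnum (Tg V γ ⊓ Cu
z) γ = lnum (Tg V γ) γ`.

(2) `C(z) = G`: `Z = Subgroup.zpowers z`, central, `p : G → G / Z`.  QLN for `p`: let `f` be a block of `G / Z` with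
`mulF (push p e) f = f`.  `QrqStmt` for `W = Z`: `γ'`, `π` with `π.ker = Z.subgroupOf V ≤ C`.  HPQ: `Hp K` for
`V.map p`.  Induction. -/
def LehStmt : Prop := TV.WatStmt → T3.LocStmt → T3.LsbStmt → QrxStmt → QrqStmt → QlnStmt →
  FrtStmt → LtxStmt → HpqStmt → RsqStmt → ∀ K : Kl, (∀ ℓ : ℕ, ℓ.Prime → Adm ℓ K) → LenFor K →
  LenFor (Kh K)

/-! ## 3. The clean hypotheses -/

/-- CLA: from `ClP` to `KP`, for an arbitrary abelian `ℓ`-subgroup.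

Proof.  `H97.clp` (`Helper97_PST/CLP.lean`) with `E` instead of `Ei V γ` (used there: every element of `E` is
induced by an element of `T`; `¬ ℓ ∣ |E|`; `V` is a commutative `ℓ`-group). -/
def ClaStmt : Prop := MsuStmt → PFD.EdfStmt → ∀ (ℓ : ℕ) [Fact ℓ.Prime] (G : Type) [Group G]
  [Finite G] (T : Set G) (V : Subgroup G), V ≠ ⊥ → IsPGroup ℓ V →
  (∀ a b : V, a * b = b * a) → ∀ E : Subgroup (MulAut V), ¬ ℓ ∣ Nat.card E →
  (∀ a ∈ E, ∃ t ∈ T, ∀ v : V, ((a v : V) : G) = t * v * t⁻¹) → ∀ W U : Subgroup G,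
  ClP ℓ T V W U → ∃ W₀ : Subgroup V, KP ℓ V E W₀

/-- CLB: from `ClW` to the union, for an arbitrary abelian `ℓ`-subgroup.

Proof.  `GU.H3.clv` (`Helper3_PST/CLV.lean`) with `E` instead of `Ei V γ`.  New: the terminal condition `LP ℓ U'
(rse E U')`, `U' = U.subgroupOf V`, in the second case of `gn`: an automorphism in `rse E U'` is the restriction of
some `a ∈ E`, which is induced by some `t ∈ T`, so it is determined by the element `u ↦ t u t⁻¹` of `Ind T U`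
(`U ≤ V`); so `|rse E U'| ≤ (Ind T U).ncard` (`Ind T U` is finite: `G` is finite), and the order is finite.  In the case
`V = U`: the same for `E` instead of `rse E U'`. -/
def ClbStmt : Prop := SryStmt → MsuStmt → ∀ (ℓ : ℕ) [Fact ℓ.Prime] (G : Type) [Group G]
  [Finite G] (T : Set G) (V : Subgroup G), V ≠ ⊥ → IsPGroup ℓ V →
  (∀ a b : V, a * b = b * a) → ∀ E : Subgroup (MulAut V), ¬ ℓ ∣ Nat.card E →
  (∀ a ∈ E, ∃ t ∈ T, ∀ v : V, ((a v : V) : G) = t * v * t⁻¹) → ∀ (s : ℕ)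
  (Y : Fin s → Subgroup G) (U : Subgroup G), ClW ℓ T V s Y U →
  ∃ W₀ : Subgroup V, KV KP LP ℓ V E W₀

/-- CLH: the class of the final theorem.

Proof.  `E = Ei V γ`, `C' = C.subgroupOf V`, `V₀' = D₀.subgroupOf V`.  The first four conditions of `Hp`: from the
hypotheses (the elements of `E` are induced by elements of `Tg V γ`, as in `H97.clp`).  `D₀ = ⊥`: `V₀' = ⊥`.
Otherwise CLA or CLB for the group `G`, `T = Tg V γ`, the subgroup `D₀` and the automorphisms of `D₀` which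
correspond to `rse E V₀'` under `V₀' ≃* D₀` (`Subgroup.subgroupOfEquivOfLe`); then `Adm.iso` for this
isomorphism.  `¬ ℓ ∣ |rse E V₀'|`: every element is induced by an element of `E`, and `ℓ` does not divide `|E|`
(`K9.InxStmt` as in `H97.clp`): `rse E V₀'` is a quotient of `E`. -/
def ClhStmt : Prop := ClaStmt → ClbStmt → MsuStmt → PFD.EdfStmt → SryStmt → PFD.LkeStmt →
  K9.InxStmt → (∀ ℓ : ℕ, ℓ.Prime → Adm ℓ (KV KP LP)) →
  ∀ (ℓ : ℕ) [Fact ℓ.Prime] (M : Ideal (integralClosure ℤ ℂ)) [M.IsMaximal],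
  (ℓ : integralClosure ℤ ℂ) ∈ M → ∀ (G : Type) [Group G] [Finite G] (e : G → FF M)
  (V : Subgroup G) (γ : G → FF M), Ld ℓ e V γ → V ≠ ⊥ → ∀ C D₀ : Subgroup G, C ⊓ D₀ = ⊥ →
  C ⊔ D₀ = V → (∀ t ∈ Tg V γ, ∀ c ∈ C, t * c = c * t) → (∀ t ∈ Tg V γ, ∀ d ∈ D₀, t * d * t⁻¹ ∈ D₀) →
  ((∃ W U : Subgroup G, ClP ℓ (Tg V γ : Set G) D₀ W U) ∨
    ∃ (s : ℕ) (Y : Fin s → Subgroup G) (U : Subgroup G), ClW ℓ (Tg V γ : Set G) D₀ s Y U) →
  ∃ W₀ : Subgroup V, Kh (KV KP LP) ℓ V (Ei V γ) W₀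

end Pool.Agent.HFC
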